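import Pool.Agent.helper44.NLT.Spec

set_option autoImplicit false

open Complex Metric Set Filter Topology MeasureTheory MPS
open Pool.Agent.helper98.ILF Pool.Agent.helper16.Multibrot

noncomputable section

namespace NLT

theorem SMB : SMB_stmt := by
  intro b t hb m
  induction m with
  | zero =>
    have h0 : ∀ j : ℕ, t ^ j * NLS.Pc b 0 j = if j = 0 then 1 else 0 := by
      intro j
      by_cases hj : j = 0
      · subst hj
        simp [NLS.Pc]
      · simp [NLS.Pc, hj]
    constructor
    · apply summable_of_ne_finset_zero (s := {0})
      intro j hj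
      rw [h0 j]
      have : j ≠ 0 := by simpa using hj
      simp [this]
    · rw [pow_zero]
      rw [tsum_eq_single 0]
      · rw [h0 0]; simp
      · intro j hj
        rw [h0 j]; simp [hj]
  | succ m ih =>
    obtain ⟨hs, ht⟩ := ih
    have hterm : ∀ j : ℕ, t ^ j * NLS.Pc b (m + 1) j =
        ∑ i ∈ Finset.range (j + 1), (t ^ i * NLS.Pc b m i) * (t ^ (j - i) * b (j - i)) := by
      intro j
      have : NLS.Pc b (m + 1) j = ∑ i ∈ Finset.range (j + 1), NLS.Pc b m i * b (j - i) := by
        simp [NLS.Pc]
      rw [this, Finset.mul_sum]
      apply Finset.sum_congr rfl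
      intro i hi
      have hij : i + (j - i) = j := by
        have := Finset.mem_range.mp hi
        omega
      calc t ^ j * (NLS.Pc b m i * b (j - i)) = t ^ (i + (j - i)) * (NLS.Pc b m i * b (j - i)) := by rw [hij]
        _ = _ := by rw [pow_add]; ring
    constructor
    · have := summable_norm_sum_mul_range_of_summable_norm hs hb
      refine this.congr ?_
      intro j
      rw [hterm j]
    · rw [pow_succ, ← ht, tsum_mul_tsum_eq_tsum_sum_range_of_summable_norm hs hb]
      apply tsum_congr
      intro j
      rw [hterm j]

end NLT
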